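import Pool.Agent.J4H7.WT.U

set_option autoImplicit false

/-!
# The number of representations: one more variable (helper7)
-/

namespace Pool.Agent.J4H7.WV

open Finset Filter Topology
open Pool.Agent.J4H7.WS (Fn fr fr_err)

/-- at least `c N ^ e` representations by `s` terms -/
def Many (f : ℝ → ℝ) (s : ℕ) (e : ℝ) : Prop := ∃ c : ℝ, 0 < c ∧ ∃ N₀ : ℕ, ∀ N : ℕ, N₀ ≤ N →
  ∃ T : Finset (Fin s → ℕ), (∀ x ∈ T, (∀ i, 1 ≤ x i) ∧ ∑ i, fr f (x i) = N) ∧ c * (N : ℝ) ^ e ≤ (T.card : ℝ)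

/-- one more variable -/
theorem Many_succ {k : ℕ} (hk : 1 ≤ k) {f : ℝ → ℝ} (hf : Fn k f) {s : ℕ} {e : ℝ} (he : 0 ≤ e) (h : Many f s e) :
    Many f (s + 1) (e + 1 / k) := by
  classical
  obtain ⟨c, hc, N₀, H⟩ := h
  obtain ⟨C, hC, hall⟩ := hf.all
  have hk0 : (0 : ℝ) < k := by exact_mod_cast hk
  have ev : ∀ᶠ N : ℕ in atTop, 2 ≤ ((N : ℝ) / (2 * C)) ^ ((1 : ℝ) / k) := by
    have h1 : Tendsto (fun N : ℕ => (N : ℝ) / (2 * C)) atTop atTop :=
      tendsto_natCast_atTop_atTop.atTop_div_const (by linarith)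
    exact ((tendsto_rpow_atTop (by positivity)).comp h1).eventually_ge_atTop _
  obtain ⟨N1, hN1⟩ := eventually_atTop.1 ev
  refine ⟨(1 / 2 : ℝ) ^ e * c * (1 / 2 * (1 / (2 * C)) ^ ((1 : ℝ) / k)), by positivity, max (2 * N₀ + 2) N1, fun N hN => ?_⟩
  have g1 : 2 * N₀ + 2 ≤ N := (le_max_left _ _).trans hN
  have g2 : N1 ≤ N := (le_max_right _ _).trans hN
  have hNr : (0 : ℝ) < N := by
    have : 0 < N := by omega
    exact_mod_cast this
  set y : ℝ := ((N : ℝ) / (2 * C)) ^ ((1 : ℝ) / k) with hy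
  have hy2 : 2 ≤ y := hN1 N g2
  have hyk : y ^ k = N / (2 * C) := by
    rw [hy, ← Real.rpow_natCast, ← Real.rpow_mul (by positivity), one_div_mul_cancel hk0.ne', Real.rpow_one]
  set Y : ℕ := ⌊y⌋₊ with hY
  have hYy : (Y : ℝ) ≤ y := Nat.floor_le (by linarith)
  have hYl : y / 2 ≤ Y := by
    have := Nat.lt_floor_add_one y
    rw [← hY] at this
    linarith
  -- the values
  have hfe : ∀ z ∈ Finset.Icc 1 Y, (fr f z : ℝ) ≤ N / 2 := by
    intro z hz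
    rw [Finset.mem_Icc] at hz
    have h1 : (1 : ℝ) ≤ z := by exact_mod_cast hz.1
    have h2 : (z : ℝ) ≤ y := le_trans (by exact_mod_cast hz.2) hYy
    refine (fr_err hf.nn z).1.trans ((hall z h1).trans ?_)
    have h3 : (z : ℝ) ^ k ≤ y ^ k := pow_le_pow_left₀ (by linarith) h2 k
    rw [hyk] at h3
    calc C * (z : ℝ) ^ k ≤ C * (N / (2 * C)) := mul_le_mul_of_nonneg_left h3 (by linarith)
      _ = N / 2 := by
        have : C ≠ 0 := by
          intro h0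
          rw [h0] at hC
          linarith
        field_simp
  have hsub : ∀ z ∈ Finset.Icc 1 Y, fr f z ≤ N ∧ (N : ℝ) / 2 ≤ ((N - fr f z : ℕ) : ℝ) := by
    intro z hz
    have h1 := hfe z hz
    have h2 : fr f z ≤ N := by
      have : (fr f z : ℝ) ≤ N := by linarith
      exact_mod_cast this
    refine ⟨h2, ?_⟩
    rw [Nat.cast_sub h2]
    linarith
  have hN0 : ∀ z ∈ Finset.Icc 1 Y, N₀ ≤ N - fr f z := by
    intro z hz
    have h1 := (hsub z hz).2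
    have h2 : (N₀ : ℝ) ≤ ((N - fr f z : ℕ) : ℝ) := by
      have : (2 * (N₀ : ℝ) + 2) ≤ N := by exact_mod_cast g1
      linarith
    exact_mod_cast h2
  choose! T hT1 hT2 using fun z (hz : z ∈ Finset.Icc 1 Y) => H (N - fr f z) (hN0 z hz)
  refine ⟨(Finset.Icc 1 Y).biUnion fun z => (T z).image fun x => (Fin.cons z x : Fin (s + 1) → ℕ), ?_, ?_⟩
  · intro w hw
    rw [Finset.mem_biUnion] at hw
    obtain ⟨z, hz, hw⟩ := hw
    rw [Finset.mem_image] at hw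
    obtain ⟨x, hx, rfl⟩ := hw
    obtain ⟨a1, a2⟩ := hT1 z hz x hx
    refine ⟨?_, ?_⟩
    · intro i
      refine Fin.cases ?_ (fun i => ?_) i
      · simpa using (Finset.mem_Icc.1 hz).1
      · simpa using a1 i
    · rw [Fin.sum_univ_succ]
      simp only [Fin.cons_zero, Fin.cons_succ]
      rw [a2]
      have := (hsub z hz).1
      omega
  · have hcard : (((Finset.Icc 1 Y).biUnion fun z => (T z).image fun x => (Fin.cons z x : Fin (s + 1) → ℕ)).card : ℝ) =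
        ∑ z ∈ Finset.Icc 1 Y, ((T z).card : ℝ) := by
      rw [Finset.card_biUnion]
      · push_cast
        refine Finset.sum_congr rfl fun z _ => ?_
        rw [Finset.card_image_of_injective]
        intro a b hab
        exact (Fin.cons_injective2 hab).2
      · intro z _ z' _ hzz
        rw [Function.onFun, Finset.disjoint_left]
        intro w hw hw'
        rw [Finset.mem_image] at hw hw'
        obtain ⟨x, _, rfl⟩ := hw
        obtain ⟨x', _, hx'⟩ := hw'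
        exact hzz (Fin.cons_injective2 hx').1.symm
    rw [hcard]
    have hone : ∀ z ∈ Finset.Icc 1 Y, (1 / 2 : ℝ) ^ e * c * (N : ℝ) ^ e ≤ ((T z).card : ℝ) := by
      intro z hz
      refine le_trans ?_ (hT2 z hz)
      have h1 : ((N : ℝ) / 2) ^ e ≤ ((N - fr f z : ℕ) : ℝ) ^ e := Real.rpow_le_rpow (by positivity) (hsub z hz).2 he
      have h2 : ((N : ℝ) / 2) ^ e = (N : ℝ) ^ e * (1 / 2) ^ e := by
        rw [div_eq_mul_one_div, Real.mul_rpow hNr.le (by norm_num)]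
      rw [h2] at h1
      calc (1 / 2 : ℝ) ^ e * c * (N : ℝ) ^ e = c * ((N : ℝ) ^ e * (1 / 2) ^ e) := by ring
        _ ≤ _ := mul_le_mul_of_nonneg_left h1 hc.le
    have h3 : (Y : ℝ) * ((1 / 2 : ℝ) ^ e * c * (N : ℝ) ^ e) ≤ ∑ z ∈ Finset.Icc 1 Y, ((T z).card : ℝ) := by
      calc (Y : ℝ) * ((1 / 2 : ℝ) ^ e * c * (N : ℝ) ^ e) = ∑ _z ∈ Finset.Icc 1 Y, (1 / 2 : ℝ) ^ e * c * (N : ℝ) ^ e := by simp
        _ ≤ _ := Finset.sum_le_sum hone
    refine le_trans ?_ h3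
    have h4 : y = (1 / (2 * C)) ^ ((1 : ℝ) / k) * (N : ℝ) ^ ((1 : ℝ) / k) := by
      rw [hy, div_eq_mul_one_div, mul_comm, Real.mul_rpow (by positivity) hNr.le]
    have h5 : (N : ℝ) ^ (e + 1 / k) = (N : ℝ) ^ e * (N : ℝ) ^ ((1 : ℝ) / k) := Real.rpow_add hNr _ _
    rw [h5]
    calc (1 / 2 : ℝ) ^ e * c * (1 / 2 * (1 / (2 * C)) ^ ((1 : ℝ) / k)) * ((N : ℝ) ^ e * (N : ℝ) ^ ((1 : ℝ) / k))
        = (((1 / (2 * C)) ^ ((1 : ℝ) / k) * (N : ℝ) ^ ((1 : ℝ) / k)) / 2) * ((1 / 2 : ℝ) ^ e * c * (N : ℝ) ^ e) := by ring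
      _ = (y / 2) * ((1 / 2 : ℝ) ^ e * c * (N : ℝ) ^ e) := by rw [← h4]
      _ ≤ _ := mul_le_mul_of_nonneg_right hYl (by positivity)

end Pool.Agent.J4H7.WV
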