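import Pool.Agent.J4H7.WV.A
import Pool.Agent.J4H7.WV.B

set_option autoImplicit false

/-!
# Waring's problem for generic polynomials: the number of representations (helper7, with helper30 and helper2)
-/

namespace Pool.Agent.J4H7.WV

open Finset MeasureTheory Filter Topology
open Pool.Agent.J4H7.WE (JJ)
open Pool.Agent.J4H7.WS (Fn ESall fr fsR fr_err)
open Pool.Agent.J4H7.WT

/-- the joined variables -/
def jn {k : ℕ} (t : (Fin k → ℕ) × (Fin k → ℕ) × ℕ) : Fin (k + k + 1) → ℕ := Fin.cons t.2.2 (Fin.append t.1 t.2.1)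

lemma jn_inj {k : ℕ} : Function.Injective (jn (k := k)) := by
  rintro ⟨x, y, z⟩ ⟨x', y', z'⟩ h
  unfold jn at h
  simp only at h
  obtain ⟨h1, h2⟩ := Fin.cons_injective2 h
  have hx : x = x' := by
    funext i
    have h3 := congrFun h2 (Fin.castAdd k i)
    rw [Fin.append_left, Fin.append_left] at h3
    exact h3
  have hy : y = y' := by
    funext i
    have h3 := congrFun h2 (Fin.natAdd k i)
    rw [Fin.append_right, Fin.append_right] at h3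
    exact h3
  rw [hx, hy, h1]

lemma jn_sum {k : ℕ} (f : ℝ → ℝ) (t : (Fin k → ℕ) × (Fin k → ℕ) × ℕ) :
    ∑ i, fr f (jn t i) = fsR f t.1 + fsR f t.2.1 + fr f t.2.2 := by
  unfold jn
  rw [Fin.sum_univ_succ]
  simp only [Fin.cons_zero, Fin.cons_succ]
  rw [Fin.sum_univ_add]
  simp only [Fin.append_left, Fin.append_right]
  unfold fsR
  ring

lemma jn_pos {k : ℕ} (t : (Fin k → ℕ) × (Fin k → ℕ) × ℕ) (h1 : ∀ i, 1 ≤ t.1 i) (h2 : ∀ i, 1 ≤ t.2.1 i) (h3 : 1 ≤ t.2.2) (i : Fin (k + k + 1)) :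
    1 ≤ jn t i := by
  unfold jn
  refine Fin.cases ?_ (fun i => ?_) i
  · simpa using h3
  · rw [Fin.cons_succ]
    refine Fin.addCases (fun i => ?_) (fun i => ?_) i
    · rw [Fin.append_left]
      exact h1 i
    · rw [Fin.append_right]
      exact h2 i

/-- `2 k + 1` terms -/
theorem Many_base {k : ℕ} (hk : 2 ≤ k) {f : ℝ → ℝ} (hf : Fn k f) (hES : ESall k f) (c : ℕ)
    (hsize : ∀ᶠ j : ℕ in atTop, ∀ x ∈ AS k c j, (fsR f x : ℝ) ≤ 4 * (2 * (2 : ℝ) ^ j) ^ k)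
    (hJ : ∀ ε : ℝ, 0 < ε → ∀ᶠ j : ℕ in atTop,
      (JJ (AS k c j) (fsR f) : ℝ) ≤ ((AS k c j).card : ℝ) ^ 2 * ((2 : ℝ) ^ j) ^ (-(k : ℝ) + ε)) :
    Many f (k + k + 1) (1 + 1 / k) := by
  classical
  have hk0 : (0 : ℝ) < k := by
    have : 0 < k := by omega
    exact_mod_cast this
  obtain ⟨c0, hc0, hev⟩ := repr_block_count hk hf hES k (AS k c) (AS_nonempty _ _)
    (fun j x hx i => AM_pos Nat.one_le_two_pow hx i) hsize hJ
  obtain ⟨j0, hj0⟩ := eventually_atTop.1 (hev.and (eventually_ge_atTop c))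
  have h1 : Tendsto (fun N : ℕ => (N : ℝ) ^ (1 / (k : ℝ))) atTop atTop :=
    (tendsto_rpow_atTop (by positivity)).comp tendsto_natCast_atTop_atTop
  obtain ⟨N₀, hN₀⟩ := eventually_atTop.1 (h1.eventually_ge_atTop (16 * (2 : ℝ) ^ (j0 + 1)))
  refine ⟨c0 * (1 / ((2 : ℝ) ^ c) ^ (2 * k)) * (1 / 32) ^ (k + 1), by positivity, N₀, fun N hN => ?_⟩
  have hN' := hN₀ N hN
  set v : ℝ := (N : ℝ) ^ (1 / (k : ℝ)) with hv
  have hvθ : v ^ k = N := by
    rw [← Real.rpow_natCast, hv, ← Real.rpow_mul (by positivity), one_div_mul_cancel hk0.ne', Real.rpow_one]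
  have h2 : (1 : ℝ) ≤ v / 16 := by
    have : (1 : ℝ) ≤ (2 : ℝ) ^ (j0 + 1) := one_le_pow₀ (by norm_num)
    linarith
  obtain ⟨j, hj1, hj2⟩ := exists_nat_pow_near h2 (by norm_num : (1 : ℝ) < 2)
  have hj : j0 ≤ j := by
    by_contra hlt
    have h3 : (2 : ℝ) ^ (j + 1) ≤ (2 : ℝ) ^ (j0 + 1) := pow_le_pow_right₀ (by norm_num) (by omega)
    linarith
  obtain ⟨hrep, hcj⟩ := hj0 j hj
  have hj2' : v ≤ 32 * (2 : ℝ) ^ j := by
    rw [pow_succ] at hj2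
    linarith
  obtain ⟨T, hT1, hT2⟩ := hrep N (by
    rw [← hvθ]
    exact pow_le_pow_left₀ (by positivity) (by linarith) k) (by
    rw [← hvθ]
    exact pow_le_pow_left₀ (by linarith) hj2' k)
  refine ⟨T.image jn, ?_, ?_⟩
  · intro w hw
    rw [Finset.mem_image] at hw
    obtain ⟨t, ht, rfl⟩ := hw
    obtain ⟨a1, a2, a3, a4⟩ := hT1 t ht
    exact ⟨jn_pos t a1 a2 a3, by rw [jn_sum, a4]⟩
  · rw [Finset.card_image_of_injective _ jn_inj]
    refine le_trans ?_ hT2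
    set X : ℝ := (2 : ℝ) ^ j with hX
    have hX0 : 0 < X := by positivity
    have hcard : ((AS k c j).card : ℝ) ^ 2 = X ^ (2 * k) * (1 / ((2 : ℝ) ^ c) ^ (2 * k)) := by
      unfold AS
      rw [AM_card]
      push_cast
      have e1 : (2 : ℝ) ^ (j - c) = X * (1 / 2 ^ c) := by
        rw [hX, mul_one_div, eq_div_iff (by positivity), ← pow_add, Nat.sub_add_cancel hcj]
      rw [e1, ← pow_mul, mul_pow, mul_comm k 2, one_div_pow]
    have e2 : X ^ (2 * k) * X ^ (1 - (k : ℝ)) = X ^ (k + 1) := by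
      rw [← Real.rpow_natCast, ← Real.rpow_natCast, ← Real.rpow_add hX0]
      congr 1
      push_cast
      ring
    have e3 : (N : ℝ) ^ (1 + 1 / (k : ℝ)) = v ^ (k + 1) := by
      have hN0 : (0 : ℝ) < N := by
        rw [← hvθ]
        have : 0 < v := by linarith
        positivity
      rw [pow_succ, hvθ, Real.rpow_add hN0, Real.rpow_one]
    have e4 : v ^ (k + 1) * (1 / 32) ^ (k + 1) ≤ X ^ (k + 1) := by
      rw [← mul_pow]
      apply pow_le_pow_left₀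
      · have : 0 ≤ v := by linarith
        positivity
      · linarith
    rw [hcard, e3]
    have hq : 0 ≤ c0 * (1 / ((2 : ℝ) ^ c) ^ (2 * k)) := by positivity
    calc c0 * (1 / ((2 : ℝ) ^ c) ^ (2 * k)) * (1 / 32) ^ (k + 1) * v ^ (k + 1)
        = c0 * (1 / ((2 : ℝ) ^ c) ^ (2 * k)) * (v ^ (k + 1) * (1 / 32) ^ (k + 1)) := by ring
      _ ≤ c0 * (1 / ((2 : ℝ) ^ c) ^ (2 * k)) * X ^ (k + 1) := mul_le_mul_of_nonneg_left e4 hq
      _ = c0 * (X ^ (2 * k) * (1 / ((2 : ℝ) ^ c) ^ (2 * k)) * X ^ (1 - (k : ℝ))) := by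
        rw [← e2]
        ring

/-- all `s ≥ 2 k + 1` -/
theorem Many_all {k : ℕ} (hk : 2 ≤ k) {f : ℝ → ℝ} (hf : Fn k f) (h : Many f (k + k + 1) (1 + 1 / k)) (r : ℕ) :
    Many f (k + k + 1 + r) (((k + k + 1 + r : ℕ) : ℝ) / k - 1) := by
  have hk0 : (0 : ℝ) < k := by
    have : 0 < k := by omega
    exact_mod_cast this
  induction r with
  | zero =>
    have e : (((k + k + 1 + 0 : ℕ) : ℝ) / k - 1) = 1 + 1 / k := by
      push_cast
      field_simp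
      ring
    rw [e]
    exact h
  | succ r ih =>
    have h0 : 0 ≤ (((k + k + 1 + r : ℕ) : ℝ) / k - 1) := by
      rw [sub_nonneg, one_le_div hk0]
      push_cast
      have : (0 : ℝ) ≤ r := by positivity
      linarith
    have h1 := Many_succ (by omega) hf h0 ih
    have e : (((k + k + 1 + (r + 1) : ℕ) : ℝ) / k - 1) = (((k + k + 1 + r : ℕ) : ℝ) / k - 1) + 1 / k := by
      push_cast
      ring
    rw [e]
    exact h1

/-- positive coefficients -/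
theorem main_pos (k : ℕ) (hk : 2 ≤ k) : ∀ᵐ α : Fin k → ℝ, (∀ i, 0 < α i) → ∀ s : ℕ, 2 * k + 1 ≤ s →
    Many (PT k α) s ((s : ℝ) / k - 1) := by
  obtain ⟨t, rfl⟩ : ∃ t, k = t + 1 := ⟨k - 1, by omega⟩
  obtain ⟨c, hc⟩ := pow_unbounded_of_one_lt (((t + 1 : ℕ) : ℝ) ^ 2) (by norm_num : (1 : ℝ) < 2)
  have h1 : ∀ᵐ α : Fin (t + 1) → ℝ, ∀ r : ℕ, ∀ ε : ℝ, 0 < ε → ∀ᶠ j : ℕ in atTop,
      (CN (t + 1) ((r : ℝ) + 1) ((t + 1 : ℕ) : ℝ) (2 ^ j) α : ℝ) ≤ ((2 : ℝ) ^ j) ^ (((t + 1 : ℕ) : ℝ) + ε) := by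
    rw [ae_all_iff]
    intro r
    exact ae_CN t (by linarith [Nat.cast_nonneg (α := ℝ) r]) (by positivity)
  filter_upwards [h1, ae_DC_pi (⟨t + 1 - 1, by omega⟩ : Fin (t + 1))] with α hMV hD hα s hs
  obtain ⟨cD, hcD, hD⟩ := hD
  obtain ⟨hF, hE⟩ := ana_holds (t + 1) hk α hα
  have hES := hE cD hcD hD
  obtain ⟨r, hr⟩ := exists_nat_ge (∑ i, α i)
  have hbox : ∀ i, α i ∈ Set.Icc (0 : ℝ) ((r : ℝ) + 1) := by
    intro i
    refine ⟨(hα i).le, ?_⟩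
    have := Finset.single_le_sum (f := α) (fun i _ => (hα i).le) (Finset.mem_univ i)
    linarith
  have hb := Many_base hk hF hES c (size_AS (by omega) hF hc.le) (JJ_AS hbox (hMV r))
  obtain ⟨q, rfl⟩ : ∃ q, s = (t + 1) + (t + 1) + 1 + q := ⟨s - ((t + 1) + (t + 1) + 1), by omega⟩
  exact Many_all hk hF hb q

/-- **the number of representations, all real coefficients** -/
theorem main_count (k : ℕ) (hk : 2 ≤ k) : ∀ᵐ α : Fin k → ℝ, ∀ s : ℕ, 2 * k + 1 ≤ s → ∃ c : ℝ, 0 < c ∧ ∃ N₀ : ℕ, ∀ N : ℕ, N₀ ≤ N →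
    ∃ T : Finset (Fin s → ℕ), (∀ x ∈ T, (∀ i, 1 ≤ x i) ∧
      ∑ i, ⌊(x i : ℝ) ^ k + ∑ j : Fin k, α j * (x i : ℝ) ^ (j : ℕ)⌋ = (N : ℤ)) ∧ c * (N : ℝ) ^ ((s : ℝ) / k - 1) ≤ (T.card : ℝ) := by
  classical
  filter_upwards [ae_shift (main_pos k hk)] with α hα s hs
  obtain ⟨d, hd⟩ := Tc_pos k α
  obtain ⟨c, hc, N₀, h⟩ := hα d hd s hs
  refine ⟨c, hc, N₀, fun N hN => ?_⟩
  obtain ⟨T, hT1, hT2⟩ := h N hN
  refine ⟨T.image fun x i => x i + d, ?_, ?_⟩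
  · intro w hw
    rw [Finset.mem_image] at hw
    obtain ⟨x, hx, rfl⟩ := hw
    obtain ⟨a1, a2⟩ := hT1 x hx
    refine ⟨fun i => le_trans (a1 i) (Nat.le_add_right _ _), ?_⟩
    rw [Finset.sum_congr rfl fun i _ => val_shift hd (x i), ← a2]
    push_cast
    rfl
  · rw [Finset.card_image_of_injective]
    · exact hT2
    · intro x y hxy
      funext i
      have := congrFun hxy i
      simpa using this

end Pool.Agent.J4H7.WV
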